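import Mathlib

/-!
# Orders of elements in finite quotients: basic closure properties
-/

set_option autoImplicit false

namespace Pool.Agent.P8H99.PT

/-- `x` has order `n` in some finite quotient. -/
def Has {G : Type} [Group G] (x : G) (n : ℕ) : Prop :=
  ∃ (H : Type) (_ : Group H) (_ : Finite H) (f : G →* H), orderOf (f x) = n

/-- every `n > 0` dividing the order of `x` is the order of `x` in a finite quotient -/
def Potent (G : Type) [Group G] : Prop :=
  ∀ x : G, ∀ n : ℕ, 0 < n → n ∣ orderOf x → Has x n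

variable {G K : Type} [Group G] [Group K]

theorem Has.comap {x : G} {n : ℕ} (g : G →* K) (h : Has (g x) n) : Has x n := by
  obtain ⟨H, i1, i2, f, hf⟩ := h
  exact ⟨H, i1, i2, f.comp g, hf⟩

theorem Has.conj {x y : G} {n : ℕ} (h : IsConj x y) (hx : Has x n) : Has y n := by
  obtain ⟨H, i1, i2, f, hf⟩ := hx
  refine ⟨H, i1, i2, f, ?_⟩
  rw [← hf]
  obtain ⟨c, hc⟩ := isConj_iff.1 h
  have : f y = f c * f x * (f c)⁻¹ := by rw [← hc]; simp
  rw [this]
  have h2 := orderOf_injective (MulAut.conj (f c)).toMonoidHom (MulAut.conj (f c)).injective (f x)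
  simpa using h2

theorem Has.one (x : G) : Has x 1 :=
  ⟨Unit, inferInstance, inferInstance, 1, by simp⟩

theorem Has.lcm {x : G} {m n : ℕ} (h1 : Has x m) (h2 : Has x n) : Has x (Nat.lcm m n) := by
  obtain ⟨H, i1, i2, f, hf⟩ := h1
  obtain ⟨H', i1', i2', f', hf'⟩ := h2
  refine ⟨H × H', inferInstance, inferInstance, f.prod f', ?_⟩
  rw [MonoidHom.prod_apply, Prod.orderOf_mk, hf, hf']

/-- if `x ^ m` has order `n` in a finite quotient and `m` is an order of `x` then so is `m n` -/
theorem Has.of_pow {x : G} {m n : ℕ} (hm : 0 < m)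
    (h1 : ∃ (H : Type) (_ : Group H) (_ : Finite H) (f : G →* H), orderOf (f x) = m)
    (h2 : Has (x ^ m) n) : Has x (m * n) := by
  obtain ⟨H, i1, i2, f, hf⟩ := h1
  obtain ⟨H', i1', i2', f', hf'⟩ := h2
  refine ⟨H × H', inferInstance, inferInstance, f.prod f', ?_⟩
  have e : (f.prod f') x = (f x, f' x) := rfl
  have h3 : m ∣ orderOf ((f.prod f') x) := by
    rw [e, Prod.orderOf_mk, hf]; exact Nat.dvd_lcm_left _ _
  have h4 : orderOf (((f.prod f') x) ^ m) = n := by
    rw [← map_pow]
    show orderOf (f (x ^ m), f' (x ^ m)) = n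
    rw [Prod.orderOf_mk, hf', map_pow, ← hf, pow_orderOf_eq_one, orderOf_one, Nat.lcm_one_left]
  rw [orderOf_pow_of_dvd hm.ne' h3] at h4
  rw [← h4]; exact (Nat.mul_div_cancel' h3).symm

/-- finitely many nontrivial elements stay nontrivial in a finite quotient -/
def Sep (G : Type) [Group G] : Prop :=
  ∀ l : List G, (∀ g ∈ l, g ≠ 1) →
    ∃ (H : Type) (_ : Group H) (_ : Finite H) (f : G →* H), ∀ g ∈ l, f g ≠ 1

theorem Potent.sep (h : Potent G) : Sep G := by
  intro l
  induction l with
  | nil => intro _; exact ⟨Unit, inferInstance, inferInstance, 1, by simp⟩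
  | cons a l ih =>
    intro hl
    obtain ⟨H, i1, i2, f, hf⟩ := ih (fun g hg => hl g (List.mem_cons_of_mem _ hg))
    have ha : a ≠ 1 := hl a List.mem_cons_self
    obtain ⟨H', i1', i2', f', hf'⟩ : ∃ (H : Type) (_ : Group H) (_ : Finite H) (f : G →* H),
        f a ≠ 1 := by
      by_cases h0 : orderOf a = 0
      · obtain ⟨H, i1, i2, f, hf⟩ := h a 2 (by norm_num) (by rw [h0]; exact dvd_zero _)
        refine ⟨H, i1, i2, f, ?_⟩
        intro h1; rw [h1, orderOf_one] at hf; omega
      · obtain ⟨H, i1, i2, f, hf⟩ := h a (orderOf a) (Nat.pos_of_ne_zero h0) dvd_rfl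
        refine ⟨H, i1, i2, f, ?_⟩
        intro h1; rw [h1, orderOf_one] at hf
        exact ha (orderOf_eq_one_iff.1 hf.symm)
    refine ⟨H × H', inferInstance, inferInstance, f.prod f', ?_⟩
    intro g hg h1
    rcases List.mem_cons.1 hg with rfl | hg
    · exact hf' (congrArg Prod.snd h1)
    · exact hf g hg (congrArg Prod.fst h1)

end Pool.Agent.P8H99.PT
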