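import Mathlib

/-!
# The order of an integral matrix modulo `c n`, where `c` is the content of `M - 1` and `n ∣ c`
-/

set_option autoImplicit false

namespace Pool.Agent.P8H99.PT

open Matrix

variable {Γ : Type} [Fintype Γ] [DecidableEq Γ]

theorem pow_one_add (A : Matrix Γ Γ ℤ) (k : ℕ) :
    ∃ B : Matrix Γ Γ ℤ, (1 + A) ^ k = 1 + (k : ℤ) • A + A * A * B := by
  induction k with
  | zero => exact ⟨0, by simp⟩
  | succ k ih =>
    obtain ⟨B, hB⟩ := ih
    refine ⟨B + A * B + (k : ℤ) • 1, ?_⟩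
    have hc : Commute A (A * A * B) := by
      have h1 : Commute A ((1 + A) ^ k) := by
        apply Commute.pow_right
        exact (Commute.one_right _).add_right (Commute.refl _)
      have h2 : A * A * B = (1 + A) ^ k - 1 - (k : ℤ) • A := by rw [hB]; abel
      rw [h2]
      exact (h1.sub_right (Commute.one_right _)).sub_right ((Commute.refl A).smul_right _)
    have h3 : A * A * B * A = A * (A * A * B) := hc.eq.symm
    rw [pow_succ, hB, mul_add, mul_one, add_mul, add_mul, one_mul, h3]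
    have h4 : ((k : ℤ) • A) * A = A * A * ((k : ℤ) • (1 : Matrix Γ Γ ℤ)) := by
      rw [Algebra.smul_mul_assoc, Algebra.mul_smul_comm, mul_one]
    rw [h4]
    push_cast
    rw [add_smul, one_smul, mul_add, mul_add]
    simp only [mul_assoc]
    abel

/-- `M - 1` has the nonzero content `c`, and `n ∣ c`. Then `M` has order `n` modulo `c n`. -/
theorem order_mod (M : Matrix Γ Γ ℤ) (n : ℕ) (hn : 0 < n) (hM : M ≠ 1)
    (hd : ∀ i j, (n : ℤ) ∣ M i j - (1 : Matrix Γ Γ ℤ) i j) :
    ∃ N : ℕ, 0 < N ∧ ∀ k : ℕ, (M ^ k).map (Int.castRingHom (ZMod N)) = 1 ↔ n ∣ k := by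
  classical
  set A : Matrix Γ Γ ℤ := M - 1 with hA
  have hA0 : A ≠ 0 := by rw [hA]; exact sub_ne_zero.2 hM
  have hne : (Finset.univ : Finset (Γ × Γ)).Nonempty := by
    by_contra h
    rw [Finset.not_nonempty_iff_eq_empty, Finset.univ_eq_empty_iff] at h
    apply hA0; ext i j; exact (h.false (i, j)).elim
  obtain ⟨g, hg1, hg2⟩ := Finset.extract_gcd (fun q : Γ × Γ => A q.1 q.2) hne
  set c := (Finset.univ : Finset (Γ × Γ)).gcd (fun q => A q.1 q.2) with hc
  have hc0 : c ≠ 0 := by
    intro h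
    apply hA0; ext i j
    have := hg1 (i, j) (Finset.mem_univ _)
    simp only at this
    rw [this, h, zero_mul]; rfl
  have hnc : (n : ℤ) ∣ c := by
    apply Finset.dvd_gcd
    intro q _
    exact hd q.1 q.2
  have hAe : ∀ i j, A i j = c * g (i, j) := fun i j => hg1 (i, j) (Finset.mem_univ _)
  have hMA : M = 1 + A := by rw [hA]; abel
  refine ⟨(c * n).natAbs, Int.natAbs_pos.2 (mul_ne_zero hc0 (by exact_mod_cast hn.ne')), ?_⟩
  intro k
  obtain ⟨B, hB⟩ := pow_one_add A k
  rw [← hMA] at hB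
  have hAA : ∀ i j, c * c ∣ (A * A * B) i j := by
    intro i j
    have e : A = c • (Matrix.of fun i j => g (i, j)) := by
      ext i j; simp [hAe]
    rw [e, smul_mul_smul_comm, Matrix.smul_mul, Matrix.smul_apply, smul_eq_mul]
    exact dvd_mul_right _ _
  have hcn : c * n ∣ c * c := mul_dvd_mul_left _ hnc
  have h1 : (M ^ k).map (Int.castRingHom (ZMod (c * n).natAbs)) = 1 ↔
      ∀ i j, c * n ∣ (M ^ k) i j - (1 : Matrix Γ Γ ℤ) i j := by
    have key : ∀ a b : ℤ, ((a : ZMod (c * n).natAbs) = b ↔ c * n ∣ a - b) := by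
      intro a b
      rw [eq_comm, ZMod.intCast_eq_intCast_iff_dvd_sub, Int.natAbs_dvd]
    constructor
    · intro h i j
      have := congrFun (congrFun h i) j
      rw [← key]
      have e : (((1 : Matrix Γ Γ ℤ) i j : ℤ) : ZMod (c * n).natAbs) =
          (1 : Matrix Γ Γ (ZMod (c * n).natAbs)) i j := by
        rw [Matrix.one_apply, Matrix.one_apply]; split_ifs <;> simp
      rw [e, ← this]; simp
    · intro h
      ext i j
      have := (key _ _).2 (h i j)
      have e : (((1 : Matrix Γ Γ ℤ) i j : ℤ) : ZMod (c * n).natAbs) =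
          (1 : Matrix Γ Γ (ZMod (c * n).natAbs)) i j := by
        rw [Matrix.one_apply, Matrix.one_apply]; split_ifs <;> simp
      rw [← e, ← this]; simp
  rw [h1]
  have h2 : (∀ i j, c * n ∣ (M ^ k) i j - (1 : Matrix Γ Γ ℤ) i j) ↔ ∀ i j, (n : ℤ) ∣ k * g (i, j) := by
    apply forall_congr'; intro i
    apply forall_congr'; intro j
    have e : (M ^ k) i j - (1 : Matrix Γ Γ ℤ) i j = c * (k * g (i, j)) + (A * A * B) i j := by
      rw [hB]
      simp only [Matrix.add_apply, Matrix.smul_apply, smul_eq_mul, hAe]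
      ring
    rw [e, Int.dvd_add_left ((hcn.trans (hAA i j))), mul_dvd_mul_iff_left hc0]
  rw [h2]
  constructor
  · intro h
    have h3 : (n : ℤ) ∣ (Finset.univ : Finset (Γ × Γ)).gcd (fun q => (k : ℤ) * g q) :=
      Finset.dvd_gcd fun q _ => h q.1 q.2
    rw [Finset.gcd_mul_left, hg2, mul_one] at h3
    rw [dvd_normalize_iff] at h3
    exact_mod_cast h3
  · intro h i j
    exact Dvd.dvd.mul_right (by exact_mod_cast h) _

end Pool.Agent.P8H99.PT
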