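import Mathlib

/-!
# Cyclically reduced words in a free product of two groups
-/

set_option autoImplicit false

namespace Pool.Agent.P8H99.PT

open Monoid.Coprod

variable {G K : Type} [Group G] [Group K]

/-- the product of the elements `a b`, `(a, b)` in the list -/
def W (l : List (G × K)) : Monoid.Coprod G K := (l.map fun p => inl p.1 * inr p.2).prod

theorem W_nil : W ([] : List (G × K)) = 1 := rfl

theorem W_cons (p : G × K) (l : List (G × K)) : W (p :: l) = inl p.1 * inr p.2 * W l := by
  simp [W]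

theorem W_append (l m : List (G × K)) : W (l ++ m) = W l * W m := by
  simp [W]

theorem exists_W (x : Monoid.Coprod G K) : ∃ l, x = W l := by
  induction x using Monoid.Coprod.induction_on' with
  | one => exact ⟨[], rfl⟩
  | inl_mul g x ih => obtain ⟨l, rfl⟩ := ih; exact ⟨(g, 1) :: l, by simp [W_cons]⟩
  | inr_mul k x ih => obtain ⟨l, rfl⟩ := ih; exact ⟨(1, k) :: l, by simp [W_cons]⟩

theorem isConj_swap (x y : Monoid.Coprod G K) : IsConj (x * y) (y * x) :=
  isConj_iff.2 ⟨y, by group⟩

theorem normal (N : ℕ) : ∀ l : List (G × K), l.length = N →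
    (∃ g : G, IsConj (W l) (inl g)) ∨ (∃ k : K, IsConj (W l) (inr k)) ∨
      ∃ l' : List (G × K), l' ≠ [] ∧ (∀ p ∈ l', p.1 ≠ 1 ∧ p.2 ≠ 1) ∧ IsConj (W l) (W l') := by
  induction N using Nat.strong_induction_on with
  | _ N ih =>
    intro l hl
    by_cases hall : ∀ p ∈ l, p.1 ≠ 1 ∧ p.2 ≠ 1
    · rcases l with _ | ⟨p, l⟩
      · left; exact ⟨1, by rw [W_nil, map_one]⟩
      · right; right; exact ⟨p :: l, by simp, hall, IsConj.refl _⟩
    · push Not at hall
      obtain ⟨p, hp, hp1⟩ := hall
      obtain ⟨l1, l2, rfl⟩ := List.append_of_mem hp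
      have hc : IsConj (W (l1 ++ p :: l2)) (W (p :: (l2 ++ l1))) := by
        have e1 : W (l1 ++ p :: l2) = W l1 * W (p :: l2) := W_append _ _
        have e2 : W (p :: (l2 ++ l1)) = W (p :: l2) * W l1 := by
          rw [← List.cons_append, W_append]
        rw [e1, e2]; exact isConj_swap _ _
      have hlen : (l2 ++ l1).length + 1 = N := by
        rw [← hl]; simp; omega
      generalize l2 ++ l1 = m at hc hlen
      -- it is enough to treat `p :: m`
      suffices hs : (∃ g : G, IsConj (W (p :: m)) (inl g)) ∨ (∃ k : K, IsConj (W (p :: m)) (inr k)) ∨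
          ∃ l' : List (G × K), l' ≠ [] ∧ (∀ p ∈ l', p.1 ≠ 1 ∧ p.2 ≠ 1) ∧
            IsConj (W (p :: m)) (W l') by
        rcases hs with ⟨g, h⟩ | ⟨k, h⟩ | ⟨l', h1, h2, h3⟩
        · exact Or.inl ⟨g, hc.trans h⟩
        · exact Or.inr (Or.inl ⟨k, hc.trans h⟩)
        · exact Or.inr (Or.inr ⟨l', h1, h2, hc.trans h3⟩)
      have key : ∀ m' : List (G × K), m'.length < N → IsConj (W (p :: m)) (W m') →
          ((∃ g : G, IsConj (W (p :: m)) (inl g)) ∨ (∃ k : K, IsConj (W (p :: m)) (inr k)) ∨
          ∃ l' : List (G × K), l' ≠ [] ∧ (∀ p ∈ l', p.1 ≠ 1 ∧ p.2 ≠ 1) ∧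
            IsConj (W (p :: m)) (W l')) := by
        intro m' h1 h2
        rcases ih _ h1 m' rfl with ⟨g, h⟩ | ⟨k, h⟩ | ⟨l', h3, h4, h5⟩
        · exact Or.inl ⟨g, h2.trans h⟩
        · exact Or.inr (Or.inl ⟨k, h2.trans h⟩)
        · exact Or.inr (Or.inr ⟨l', h3, h4, h2.trans h5⟩)
      by_cases h1 : p.1 = 1
      · rcases List.eq_nil_or_concat' m with rfl | ⟨m', q, rfl⟩
        · have e : W [p] = inr p.2 := by simp [W_cons, W_nil, h1]
          right; left; exact ⟨p.2, by rw [e]⟩
        · apply key ((q.1, q.2 * p.2) :: m')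
          · simp at hlen ⊢; omega
          · have e1 : W (p :: (m' ++ [q])) = W (p :: m') * W [q] := by
              rw [← List.cons_append, W_append]
            have e2 : W ((q.1, q.2 * p.2) :: m') = W [q] * W (p :: m') := by
              simp [W_cons, W_nil, h1, mul_assoc]
            rw [e1, e2]; exact isConj_swap _ _
      · have h2 : p.2 = 1 := hp1 h1
        rcases m with _ | ⟨q, m⟩
        · have e : W [p] = inl p.1 := by simp [W_cons, W_nil, h2]
          left; exact ⟨p.1, by rw [e]⟩
        · apply key ((p.1 * q.1, q.2) :: m)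
          · simp at hlen ⊢; omega
          · have : W (p :: q :: m) = W ((p.1 * q.1, q.2) :: m) := by
              simp [W_cons, h2, mul_assoc]
            rw [this]

end Pool.Agent.P8H99.PT
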