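import Mathlib
import Pool.Agent.P8H99.PT.Word

/-!
# A deformation of the regular representation

`Γ` is a finite group, `L γ` the matrix of the left multiplication with `γ` and `E` the matrix with the
rows `∑_{j ≠ 1} e_j` at `1` and `0` otherwise, `E ^ 2 = 0`.  For `α : G → Γ`, `β : K → Γ` the homomorphism
`Phi` maps `a` in `G` to `L (α a)` and `b` in `K` to `(1 + t E) L (β b) (1 - t E)`.
-/

set_option autoImplicit false

namespace Pool.Agent.P8H99.PT

open Monoid.Coprod Matrix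

section
variable {Γ : Type} [Group Γ] [Fintype Γ] [DecidableEq Γ]

def Lm (R : Type) [CommRing R] (γ : Γ) : Matrix Γ Γ R := Matrix.of fun i j => if i = γ * j then 1 else 0

def Em (Γ : Type) [Group Γ] [Fintype Γ] [DecidableEq Γ] (R : Type) [CommRing R] : Matrix Γ Γ R :=
  Matrix.of fun i j => if i = 1 ∧ j ≠ 1 then 1 else 0

variable (R : Type) [CommRing R]

theorem Lm_one : Lm R (1 : Γ) = 1 := by
  ext i j; simp [Lm, Matrix.one_apply]

theorem Lm_mul (γ δ : Γ) : Lm R (γ * δ) = Lm R γ * Lm R δ := by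
  ext i j
  simp only [Lm, Matrix.mul_apply, Matrix.of_apply]
  rw [Finset.sum_eq_single (δ * j)]
  · simp [mul_assoc]
  · intro k _ hk; simp [hk]
  · intro h; exact absurd (Finset.mem_univ _) h

theorem Em_sq : Em Γ R * Em Γ R = 0 := by
  ext i j
  simp only [Em, Matrix.mul_apply, Matrix.of_apply, Matrix.zero_apply]
  apply Finset.sum_eq_zero
  intro k _
  by_cases hk : k = 1 <;> simp [hk]

theorem inv1 (t : R) : (1 - t • Em Γ R) * (1 + t • Em Γ R) = 1 := by
  have h : (t • Em Γ R) * (t • Em Γ R) = 0 := by rw [smul_mul_smul_comm, Em_sq, smul_zero]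
  generalize t • Em Γ R = A at h ⊢
  have h2 : (1 - A) * (1 + A) = 1 - A * A := by noncomm_ring
  rw [h2, h, sub_zero]

theorem inv2 (t : R) : (1 + t • Em Γ R) * (1 - t • Em Γ R) = 1 := by
  have h : (t • Em Γ R) * (t • Em Γ R) = 0 := by rw [smul_mul_smul_comm, Em_sq, smul_zero]
  generalize t • Em Γ R = A at h ⊢
  have h2 : (1 + A) * (1 - A) = 1 - A * A := by noncomm_ring
  rw [h2, h, sub_zero]

def LHom : Γ →* Matrix Γ Γ R where
  toFun := Lm R
  map_one' := Lm_one R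
  map_mul' := Lm_mul R

def CHom (t : R) : Γ →* Matrix Γ Γ R where
  toFun γ := (1 + t • Em Γ R) * Lm R γ * (1 - t • Em Γ R)
  map_one' := by rw [Lm_one, mul_one, inv2]
  map_mul' γ δ := by
    rw [Lm_mul]
    calc (1 + t • Em Γ R) * (Lm R γ * Lm R δ) * (1 - t • Em Γ R)
        = (1 + t • Em Γ R) * Lm R γ * ((1 - t • Em Γ R) * (1 + t • Em Γ R)) * Lm R δ *
            (1 - t • Em Γ R) := by
          rw [inv1]; simp only [mul_one, mul_assoc]
      _ = _ := by simp only [mul_assoc]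

variable {G K : Type} [Group G] [Group K] (α : G →* Γ) (β : K →* Γ)

def Phi (t : R) : Monoid.Coprod G K →* Matrix Γ Γ R := lift ((LHom R).comp α) ((CHom R t).comp β)

theorem Phi_zero (x : Monoid.Coprod G K) : Phi R α β 0 x = Lm R (lift α β x) := by
  have : Phi R α β 0 = (LHom R).comp (lift α β) := by
    apply Monoid.Coprod.hom_ext
    · ext1 g; simp [Phi]
    · ext1 k; simp [Phi, CHom, LHom]
  rw [this]; rfl

theorem map_Lm {R' : Type} [CommRing R'] (σ : R →+* R') (γ : Γ) : (Lm R γ).map σ = Lm R' γ := by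
  ext i j; simp only [Lm, Matrix.map_apply, Matrix.of_apply]; split_ifs <;> simp

theorem map_Em {R' : Type} [CommRing R'] (σ : R →+* R') : (Em Γ R).map σ = Em Γ R' := by
  ext i j; simp only [Em, Matrix.map_apply, Matrix.of_apply]; split_ifs <;> simp

theorem map_smulEm {R' : Type} [CommRing R'] (σ : R →+* R') (t : R) :
    (t • Em Γ R).map σ = σ t • Em Γ R' := by
  ext i j
  simp only [Em, Matrix.map_apply, Matrix.smul_apply, Matrix.of_apply, smul_eq_mul, map_mul]
  split_ifs <;> simp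

theorem Phi_map {R' : Type} [CommRing R'] (σ : R →+* R') (t : R) (x : Monoid.Coprod G K) :
    Phi R' α β (σ t) x = (Phi R α β t x).map σ := by
  have : Phi R' α β (σ t) = (σ.mapMatrix : Matrix Γ Γ R →+* Matrix Γ Γ R').toMonoidHom.comp
      (Phi R α β t) := by
    apply Monoid.Coprod.hom_ext
    · ext1 g
      show Lm R' (α g) = (Lm R (α g)).map σ
      rw [map_Lm]
    · ext1 k
      show (1 + σ t • Em Γ R') * Lm R' (β k) * (1 - σ t • Em Γ R') =
        σ.mapMatrix ((1 + t • Em Γ R) * Lm R (β k) * (1 - t • Em Γ R))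
      simp only [map_mul, map_add, map_sub, map_one, RingHom.mapMatrix_apply, map_Lm, map_smulEm]
  rw [this]; rfl

end

/-! ### the leading coefficients -/

section
open Polynomial
variable {Γ : Type} [Group Γ] [Fintype Γ] [DecidableEq Γ]

/-- all entries have degree at most `d`, and the coefficient of degree `d` is `s e_c` -/
def Top (w : Γ → ℤ[X]) (d : ℕ) (c : Γ) (s : ℤ) : Prop :=
  (∀ i, (w i).natDegree ≤ d) ∧ ∀ i, (w i).coeff d = if i = c then s else 0

theorem Top.perm {w : Γ → ℤ[X]} {d : ℕ} {c : Γ} {s : ℤ} (h : Top w d c s) (γ : Γ) :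
    Top (Lm ℤ[X] γ *ᵥ w) d (γ * c) s := by
  have e : ∀ i, (Lm ℤ[X] γ *ᵥ w) i = w (γ⁻¹ * i) := by
    intro i
    simp only [Matrix.mulVec, dotProduct, Lm, Matrix.of_apply]
    rw [Finset.sum_eq_single (γ⁻¹ * i)]
    · simp
    · intro k _ hk
      rw [if_neg, zero_mul]
      rintro rfl; simp at hk
    · intro h; exact absurd (Finset.mem_univ _) h
  refine ⟨fun i => by rw [e]; exact h.1 _, fun i => ?_⟩
  rw [e, h.2]
  by_cases hi : i = γ * c
  · rw [if_pos (by rw [hi]; simp), if_pos hi]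
  · rw [if_neg (by rintro rfl; simp at hi), if_neg hi]

theorem Top.step {w : Γ → ℤ[X]} {d : ℕ} {c : Γ} {s : ℤ} (h : Top w d c s) (hc : c ≠ 1) (ε : ℤ) :
    Top ((1 + (C ε * X : ℤ[X]) • Em Γ ℤ[X]) *ᵥ w) (d + 1) 1 (ε * s) := by
  have e : ∀ i, ((1 + (C ε * X : ℤ[X]) • Em Γ ℤ[X]) *ᵥ w) i =
      w i + if i = 1 then C ε * X * ∑ j ∈ Finset.univ.filter (fun j : Γ => j ≠ 1), w j else 0 := by
    intro i
    rw [Matrix.add_mulVec, Matrix.one_mulVec, Pi.add_apply, Matrix.smul_mulVec]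
    congr 1
    simp only [Pi.smul_apply, Matrix.mulVec, dotProduct, Em, Matrix.of_apply, smul_eq_mul]
    by_cases hi : i = 1
    · simp only [hi, true_and, if_true]
      congr 1
      rw [Finset.sum_filter]
      apply Finset.sum_congr rfl
      intro j _; split_ifs <;> simp
    · simp [hi]
  constructor
  · intro i
    rw [e]
    refine (natDegree_add_le _ _).trans (max_le ((h.1 i).trans (Nat.le_succ _)) ?_)
    split_ifs
    · refine natDegree_mul_le.trans ?_
      have h1 : (C ε * X : ℤ[X]).natDegree ≤ 1 := (natDegree_C_mul_le _ _).trans natDegree_X_le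
      have h2 : (∑ j ∈ Finset.univ.filter (fun j : Γ => j ≠ 1), w j).natDegree ≤ d :=
        natDegree_sum_le_of_forall_le _ _ (fun j _ => h.1 j)
      omega
    · simp
  · intro i
    rw [e, coeff_add, coeff_eq_zero_of_natDegree_lt (lt_of_le_of_lt (h.1 i) (Nat.lt_succ_self _)),
      zero_add]
    split_ifs with hi
    · rw [mul_assoc, coeff_C_mul, coeff_X_mul, finsetSum_coeff]
      congr 1
      rw [Finset.sum_eq_single c]
      · rw [h.2, if_pos rfl]
      · intro j _ hj; rw [h.2, if_neg hj]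
      · intro hn; exact absurd (by simpa using hc) hn
    · simp

variable {G K : Type} [Group G] [Group K] (α : G →* Γ) (β : K →* Γ)

theorem Phi_cons (p : G × K) (l : List (G × K)) (w : Γ → ℤ[X]) :
    Phi ℤ[X] α β X (W (p :: l)) *ᵥ w =
      Lm ℤ[X] (α p.1) *ᵥ ((1 + (C 1 * X : ℤ[X]) • Em Γ ℤ[X]) *ᵥ (Lm ℤ[X] (β p.2) *ᵥ
        ((1 + (C (-1) * X : ℤ[X]) • Em Γ ℤ[X]) *ᵥ (Phi ℤ[X] α β X (W l) *ᵥ w)))) := by
  have e1 : (1 + (C (-1) * X : ℤ[X]) • Em Γ ℤ[X]) = 1 - (X : ℤ[X]) • Em Γ ℤ[X] := by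
    simp [sub_eq_add_neg]
  have e2 : (1 + (C 1 * X : ℤ[X]) • Em Γ ℤ[X]) = 1 + (X : ℤ[X]) • Em Γ ℤ[X] := by simp
  rw [e1, e2, W_cons, map_mul, map_mul]
  have e3 : Phi ℤ[X] α β X (inl p.1) = Lm ℤ[X] (α p.1) := rfl
  have e4 : Phi ℤ[X] α β X (inr p.2) =
    (1 + (X : ℤ[X]) • Em Γ ℤ[X]) * Lm ℤ[X] (β p.2) * (1 - (X : ℤ[X]) • Em Γ ℤ[X]) := rfl
  rw [e3, e4]
  simp only [Matrix.mulVec_mulVec, mul_assoc]

theorem exists_top (c₀ : Γ) (hc₀ : c₀ ≠ 1) : ∀ l : List (G × K),
    (∀ p ∈ l, α p.1 ≠ 1 ∧ β p.2 ≠ 1) →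
    ∃ c s, c ≠ 1 ∧ s ≠ 0 ∧ Top (Phi ℤ[X] α β X (W l) *ᵥ (Pi.single c₀ 1)) (2 * l.length) c s := by
  intro l
  induction l with
  | nil =>
    intro _
    refine ⟨c₀, 1, hc₀, one_ne_zero, ?_, ?_⟩
    · intro i
      rw [W_nil, map_one, Matrix.one_mulVec]
      by_cases hi : i = c₀
      · subst hi; simp
      · simp [hi]
    · intro i
      rw [W_nil, map_one, Matrix.one_mulVec]
      by_cases hi : i = c₀
      · subst hi; simp
      · simp [hi]
  | cons p l ih =>
    intro hl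
    obtain ⟨c, s, hc, hs, ht⟩ := ih (fun q hq => hl q (List.mem_cons_of_mem _ hq))
    obtain ⟨h1, h2⟩ := hl p List.mem_cons_self
    have t1 := ht.step hc (-1)
    have t2 := t1.perm (β p.2)
    rw [mul_one] at t2
    have t3 := t2.step h2 1
    have t4 := t3.perm (α p.1)
    rw [mul_one] at t4
    refine ⟨α p.1, 1 * (-1 * s), h1, by simpa using hs, ?_⟩
    rw [Phi_cons]
    have : 2 * (p :: l).length = 2 * l.length + 1 + 1 := by simp; ring
    rw [this]
    exact t4

theorem Phi_ne_one (l : List (G × K)) (hne : l ≠ []) (hl : ∀ p ∈ l, α p.1 ≠ 1 ∧ β p.2 ≠ 1) :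
    Phi ℤ[X] α β X (W l) ≠ 1 := by
  intro h
  obtain ⟨p, l', rfl⟩ := List.exists_cons_of_ne_nil hne
  obtain ⟨c, s, -, hs, ht⟩ := exists_top α β (α p.1) (hl p List.mem_cons_self).1 _ hl
  rw [h, Matrix.one_mulVec] at ht
  have h1 := ht.2 c
  rw [if_pos rfl] at h1
  apply hs
  rw [← h1]
  have : ∀ i, ((Pi.single (α p.1) 1 : Γ → ℤ[X]) i).coeff (2 * (p :: l').length) = 0 := by
    intro i
    have hpos : 2 * (p :: l').length ≠ 0 := by simp
    by_cases hi : i = α p.1
    · subst hi; rw [Pi.single_eq_same, coeff_one, if_neg hpos]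
    · rw [Pi.single_eq_of_ne hi, coeff_zero]
  exact this c

end

end Pool.Agent.P8H99.PT
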