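import Mathlib
import Pool.Agent.P8H99.PT.Base
import Pool.Agent.P8H99.PT.Word
import Pool.Agent.P8H99.PT.Rep
import Pool.Agent.P8H99.PT.Ord

/-!
# Orders of the elements of the cartesian subgroup of a free product
-/

set_option autoImplicit false

namespace Pool.Agent.P8H99.PT

open Monoid.Coprod Polynomial Matrix

variable {G K : Type} [Group G] [Group K]

theorem lift_eq {P Q : Type} [Group P] [Group Q] (f : G →* P) (f' : K →* Q)
    (x : Monoid.Coprod G K) :
    lift ((MonoidHom.inl P Q).comp f) ((MonoidHom.inr P Q).comp f') x = (f (fst x), f' (snd x)) := by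
  have : lift ((MonoidHom.inl P Q).comp f) ((MonoidHom.inr P Q).comp f') =
      (f.comp fst).prod (f'.comp snd) := by
    apply Monoid.Coprod.hom_ext
    · ext1 g; simp
    · ext1 k; simp
  rw [this]; rfl

/-- a word with nontrivial letters which is trivial for `t = 0` has all orders -/
theorem word_order {Γ : Type} [Group Γ] [Fintype Γ] [DecidableEq Γ] (α : G →* Γ) (β : K →* Γ)
    (l : List (G × K)) (hne : l ≠ []) (hl : ∀ p ∈ l, α p.1 ≠ 1 ∧ β p.2 ≠ 1)
    (h0 : lift α β (W l) = 1) (n : ℕ) (hn : 0 < n) : Has (W l) n := by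
  have h1 := Phi_ne_one α β l hne hl
  obtain ⟨i, j, hij⟩ : ∃ i j, Phi ℤ[X] α β X (W l) i j - (1 : Matrix Γ Γ ℤ[X]) i j ≠ 0 := by
    by_contra hcon
    push Not at hcon
    exact h1 (by ext1 i j; exact sub_eq_zero.1 (hcon i j))
  set q : ℤ[X] := Phi ℤ[X] α β X (W l) i j - (1 : Matrix Γ Γ ℤ[X]) i j with hq
  obtain ⟨s, hs⟩ : ∃ s : ℕ, q.eval ((n : ℤ) * (s : ℤ)) ≠ 0 := by
    by_contra hcon
    push Not at hcon
    apply hij
    apply Polynomial.eq_zero_of_infinite_isRoot
    refine Set.Infinite.mono (s := Set.range fun s : ℕ => (n : ℤ) * (s : ℤ)) ?_ ?_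
    · rintro _ ⟨s, rfl⟩; exact hcon s
    · apply Set.infinite_range_of_injective
      intro a b hab
      have hn' : (n : ℤ) ≠ 0 := by exact_mod_cast hn.ne'
      exact_mod_cast mul_left_cancel₀ hn' hab
  set t : ℤ := (n : ℤ) * (s : ℤ) with ht
  set M : Matrix Γ Γ ℤ := Phi ℤ α β t (W l) with hMdef
  have hMeval : ∀ u : ℤ, Phi ℤ α β u (W l) = (Phi ℤ[X] α β X (W l)).map (evalRingHom u) := by
    intro u
    rw [← Phi_map]; simp
  have hM : M ≠ 1 := by
    intro hM
    apply hs
    have := congrFun (congrFun hM i) j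
    rw [hMdef, hMeval] at this
    rw [hq, eval_sub]
    have e1 : eval t ((1 : Matrix Γ Γ ℤ[X]) i j) = (1 : Matrix Γ Γ ℤ) i j := by
      rw [Matrix.one_apply, Matrix.one_apply]; split_ifs <;> simp
    rw [e1, sub_eq_zero]
    exact this
  have hd : ∀ i j, (n : ℤ) ∣ M i j - (1 : Matrix Γ Γ ℤ) i j := by
    intro i j
    have e0 : Phi ℤ α β 0 (W l) = 1 := by rw [Phi_zero, h0, Lm_one]
    rw [← e0, hMdef, hMeval t, hMeval 0]
    refine dvd_trans (Dvd.intro _ rfl : (n : ℤ) ∣ t) ?_
    have := Polynomial.sub_dvd_eval_sub t 0 (Phi ℤ[X] α β X (W l) i j)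
    rw [sub_zero] at this
    exact this
  obtain ⟨N, hN, hord⟩ := order_mod M n hn hM hd
  have : NeZero N := ⟨hN.ne'⟩
  let ρ : Monoid.Coprod G K →* Matrix Γ Γ (ZMod N) := Phi (ZMod N) α β (Int.castRingHom (ZMod N) t)
  have hρ : ρ (W l) = M.map (Int.castRingHom (ZMod N)) := by
    show Phi (ZMod N) α β (Int.castRingHom (ZMod N) t) (W l) = _
    rw [Phi_map]
  refine ⟨(Matrix Γ Γ (ZMod N))ˣ, inferInstance, inferInstance, ρ.toHomUnits, ?_⟩
  have hk : ∀ k : ℕ, ρ.toHomUnits (W l) ^ k = 1 ↔ n ∣ k := by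
    intro k
    rw [← hord k, ← Units.val_inj, Units.val_pow_eq_pow_val, Units.val_one,
      MonoidHom.coe_toHomUnits, hρ]
    have : (M ^ k).map (Int.castRingHom (ZMod N)) = (M.map (Int.castRingHom (ZMod N))) ^ k :=
      map_pow (Int.castRingHom (ZMod N)).mapMatrix M k
    rw [this]
  apply Nat.dvd_antisymm
  · exact orderOf_dvd_of_pow_eq_one ((hk n).2 dvd_rfl)
  · exact (hk _).1 (pow_orderOf_eq_one _)

/-- a nontrivial element of the cartesian subgroup has all orders in finite quotients -/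
theorem cartesian (hG : Sep G) (hK : Sep K) (x : Monoid.Coprod G K) (h1 : fst x = 1)
    (h2 : snd x = 1) (hx : x ≠ 1) (n : ℕ) (hn : 0 < n) : Has x n := by
  classical
  obtain ⟨l, rfl⟩ := exists_W x
  rcases normal _ l rfl with ⟨g, hc⟩ | ⟨k, hc⟩ | ⟨l', hne, hl', hc⟩
  · exfalso
    obtain ⟨c, hc⟩ := isConj_iff.1 hc
    have e : g = 1 := by
      have := congrArg fst hc
      simpa [h1] using this.symm
    rw [e, map_one, conj_eq_one_iff] at hc
    exact hx hc
  · exfalso
    obtain ⟨c, hc⟩ := isConj_iff.1 hc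
    have e : k = 1 := by
      have := congrArg snd hc
      simpa [h2] using this.symm
    rw [e, map_one, conj_eq_one_iff] at hc
    exact hx hc
  · apply Has.conj hc.symm
    have h1' : fst (W l') = 1 := by
      obtain ⟨c, hc⟩ := isConj_iff.1 hc
      rw [← hc]; simp [h1]
    have h2' : snd (W l') = 1 := by
      obtain ⟨c, hc⟩ := isConj_iff.1 hc
      rw [← hc]; simp [h2]
    obtain ⟨P, i1, i2, f, hf⟩ := hG (l'.map Prod.fst) (by
      intro g hg
      obtain ⟨p, hp, rfl⟩ := List.mem_map.1 hg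
      exact (hl' p hp).1)
    obtain ⟨Q, i1', i2', f', hf'⟩ := hK (l'.map Prod.snd) (by
      intro g hg
      obtain ⟨p, hp, rfl⟩ := List.mem_map.1 hg
      exact (hl' p hp).2)
    have := Fintype.ofFinite P
    have := Fintype.ofFinite Q
    apply word_order ((MonoidHom.inl P Q).comp f) ((MonoidHom.inr P Q).comp f') l' hne _ _ n hn
    · intro p hp
      constructor
      · intro h
        exact hf p.1 (List.mem_map_of_mem hp) (congrArg Prod.fst h)
      · intro h
        exact hf' p.2 (List.mem_map_of_mem hp) (congrArg Prod.snd h)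
    · rw [lift_eq, h1', h2', map_one, map_one]; rfl

end Pool.Agent.P8H99.PT
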